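import Mathlib

namespace Pool.Agent.Results.MP_16ddc9_co.DegreeBound

open Finset SimpleGraph

/-- `c` is a neighbor-locating colouring of `G` with exactly `k` nonempty colour classes. -/
def IsNL {V : Type} (G : SimpleGraph V) (k : ℕ) (c : V → Fin k) : Prop :=
  Function.Surjective c ∧ (∀ u v, G.Adj u v → c u ≠ c v) ∧
    ∀ u v, u ≠ v → c u = c v → c '' G.neighborSet u ≠ c '' G.neighborSet v

/-- The neighbor-locating chromatic number of `G` equals `k`. -/
def IsNLNumber {V : Type} (G : SimpleGraph V) (k : ℕ) : Prop :=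
  IsLeast {j : ℕ | ∃ c : V → Fin j, IsNL G j c} k

lemma two_leaves {V : Type} [Fintype V] (H : SimpleGraph V) (hH : H.IsAcyclic) {r s : V}
    (h : H.Adj r s) : ∃ a b, a ≠ b ∧ H.Reachable r a ∧ H.Reachable r b ∧
      (∃! w, H.Adj a w) ∧ (∃! w, H.Adj b w) := by
  classical
  let C := H.connectedComponentMk r
  have hr : r ∈ C := rfl
  have hs : s ∈ C := C.mem_supp_of_adj_mem_supp hr h
  have ht := hH.isTree_connectedComponent C
  haveI : Nontrivial C := ⟨⟨r, hr⟩, ⟨s, hs⟩, fun e => h.ne (congrArg Subtype.val e)⟩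
  haveI : Fintype C := Fintype.ofFinite _
  obtain ⟨u, v, huv, hu, hv⟩ := ht.exists_ne_and_degree_eq_one
  have key : ∀ x : C, (∃! w, C.toSimpleGraph.Adj x w) → ∃! w, H.Adj x.1 w := by
    rintro ⟨x, hx⟩ ⟨⟨w, hw⟩, h1, h2⟩
    refine ⟨w, (C.toSimpleGraph_adj hx hw).1 h1, fun y hy => ?_⟩
    have hy' : y ∈ C := C.mem_supp_of_adj_mem_supp hx hy
    exact congrArg Subtype.val (h2 ⟨y, hy'⟩ ((C.toSimpleGraph_adj hx hy').2 hy))
  refine ⟨u.1, v.1, fun e => huv (Subtype.ext e), C.reachable_of_mem_supp hr u.2,
    C.reachable_of_mem_supp hr v.2, key u ?_, key v ?_⟩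
  · exact degree_eq_one_iff_existsUnique_adj.1 hu
  · exact degree_eq_one_iff_existsUnique_adj.1 hv

/-- The subgraph on the vertices not coloured `κ`. -/
def avoid {V : Type} (G : SimpleGraph V) {k : ℕ} (c : V → Fin k) (κ : Fin k) : SimpleGraph V where
  Adj a b := G.Adj a b ∧ c a ≠ κ ∧ c b ≠ κ
  symm := ⟨fun _ _ h => ⟨h.1.symm, h.2.2, h.2.1⟩⟩
  loopless := ⟨fun _ h => h.1.ne rfl⟩

lemma avoid_le {V : Type} (G : SimpleGraph V) {k : ℕ} (c : V → Fin k) (κ : Fin k) :
    avoid G c κ ≤ G := fun _ _ h => h.1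

lemma support_ne {V : Type} {G : SimpleGraph V} {k : ℕ} {c : V → Fin k} {κ : Fin k} {a b : V}
    (p : (avoid G c κ).Walk a b) (ha : c a ≠ κ) : ∀ x ∈ p.support, c x ≠ κ := by
  induction p with
  | nil => simpa using ha
  | cons h q ih =>
    intro x hx
    rw [Walk.support_cons, List.mem_cons] at hx
    rcases hx with rfl | hx
    · exact ha
    · exact ih h.2.2 x hx

lemma sep {V : Type} {G : SimpleGraph V} (hG : G.IsAcyclic) {k : ℕ} {c : V → Fin k} {v r s : V}
    (hr : G.Adj v r) (hs : G.Adj v s) (hc : c r ≠ c v)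
    (h : (avoid G c (c v)).Reachable r s) : s = r := by
  classical
  obtain ⟨p, hp⟩ := h.exists_isPath
  have hv : v ∉ (p.mapLe (avoid_le G c (c v))).support := by
    rw [Walk.support_mapLe_eq_support]
    exact fun hx => support_ne p hc v hx rfl
  have hP : (Walk.cons hr (p.mapLe (avoid_le G c (c v)))).IsPath :=
    (Walk.cons_isPath_iff _ _).2 ⟨hp.mapLe _, hv⟩
  have := hG.eq_snd_of_adj_start hP hs (Walk.end_mem_support _)
  simpa using this

theorem result {V : Type} [Fintype V] (T : SimpleGraph V) [DecidableRel T.Adj] (hT : T.IsTree)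
    (k : ℕ) (hk : IsNLNumber T k) : T.maxDegree ≤ (k - 1) ^ 2 := by
  classical
  obtain ⟨⟨c, -, hp, hn⟩, -⟩ := hk
  apply maxDegree_le_of_forall_degree_le
  intro v
  set κ := c v with hκ
  set H := avoid T c κ with hH
  have hHa : H.IsAcyclic := hT.isAcyclic.anti (avoid_le T c κ)
  set E : Finset (Fin k) := univ.erase κ with hE
  have hEc : E.card = k - 1 := by simp [hE]
  have hinj : ∀ a b, c a = c b → c '' T.neighborSet a = c '' T.neighborSet b → a = b := by
    intro a b h1 h2
    by_contra h3
    exact hn a b h3 h1 h2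
  have hnb : ∀ r, T.Adj v r → c r ≠ κ := fun r hr => (hp v r hr).symm
  set Z : Finset V := univ.filter (fun a => ∃! w, H.Adj a w) with hZ
  have hZc : Z.card ≤ (E.offDiag ×ˢ (univ : Finset Bool)).card := by
    let φ : (Fin k × Fin k) × Bool → Fin k × Set (Fin k) :=
      fun x => (x.1.1, if x.2 then {x.1.2, κ} else {x.1.2})
    refine le_trans ?_ (card_image_le (f := φ))
    apply card_le_card_of_injOn (fun a => (c a, c '' T.neighborSet a))
    · intro a ha
      obtain ⟨w, hw, hu⟩ := (mem_filter.1 (mem_coe.1 ha)).2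
      have hoff : (c a, c w) ∈ E.offDiag := by
        rw [mem_offDiag]
        exact ⟨by simp [hE, hw.2.1], by simp [hE, hw.2.2], hp a w hw.1⟩
      have hsub : ∀ y, y ∈ c '' T.neighborSet a → y = c w ∨ y = κ := by
        rintro y ⟨x, hx, rfl⟩
        by_cases h1 : c x = κ
        · exact Or.inr h1
        · exact Or.inl (congrArg c (hu x ⟨hx, hw.2.1, h1⟩))
      have hin : c w ∈ c '' T.neighborSet a := ⟨w, hw.1, rfl⟩
      rw [mem_coe, mem_image]
      by_cases h2 : κ ∈ c '' T.neighborSet a
      · refine ⟨((c a, c w), true), by simpa using hoff, Prod.ext rfl ?_⟩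
        ext y
        simp only [φ, if_true, Set.mem_insert_iff, Set.mem_singleton_iff]
        constructor
        · rintro (rfl | rfl)
          · exact hin
          · exact h2
        · exact hsub y
      · refine ⟨((c a, c w), false), by simpa using hoff, Prod.ext rfl ?_⟩
        ext y
        simp only [φ, Bool.false_eq_true, if_false, Set.mem_singleton_iff]
        constructor
        · rintro rfl
          exact hin
        · intro hy
          rcases hsub y hy with h3 | h3
          · exact h3
          · exact absurd (h3 ▸ hy) h2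
    · intro a _ b _ e
      exact hinj a b (congrArg Prod.fst e) (congrArg Prod.snd e)
  rw [card_product, offDiag_card, hEc, card_univ, Fintype.card_bool] at hZc
  set N1 := (T.neighborFinset v).filter (fun r => ¬ ∃ s, H.Adj r s) with hN1
  set N2 := (T.neighborFinset v).filter (fun r => ∃ s, H.Adj r s) with hN2
  have h1 : N1.card ≤ k - 1 := by
    rw [← hEc]
    have hsig : ∀ r ∈ N1, c '' T.neighborSet r = {κ} := by
      intro r hr
      obtain ⟨hr1, hr2⟩ := mem_filter.1 hr
      rw [mem_neighborFinset] at hr1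
      ext y
      constructor
      · rintro ⟨x, hx, rfl⟩
        by_contra h3
        exact hr2 ⟨x, hx, hnb r hr1, h3⟩
      · rintro rfl
        exact ⟨v, hr1.symm, rfl⟩
    apply card_le_card_of_injOn c
    · intro r hr
      have hr1 := (mem_filter.1 (mem_coe.1 hr)).1
      rw [mem_neighborFinset] at hr1
      simp [hE, hnb r hr1]
    · intro a ha b hb e
      exact hinj a b e (by rw [hsig a ha, hsig b hb])
  have h2 : N2.card * 2 ≤ Z.card := by
    have hd : ((N2 : Set V)).PairwiseDisjoint (fun r => Z.filter (fun a => H.Reachable r a)) := by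
      intro r hr s hs hrs
      have hr1 := (mem_filter.1 (mem_coe.1 hr)).1
      have hs1 := (mem_filter.1 (mem_coe.1 hs)).1
      rw [mem_neighborFinset] at hr1 hs1
      rw [Function.onFun, Finset.disjoint_left]
      intro a ha hb
      exact hrs (sep hT.isAcyclic hr1 hs1 (hnb r hr1)
        ((mem_filter.1 ha).2.trans (mem_filter.1 hb).2.symm)).symm
    calc N2.card * 2 = ∑ _r ∈ N2, 2 := by simp
      _ ≤ ∑ r ∈ N2, (Z.filter (fun a => H.Reachable r a)).card := by
        apply sum_le_sum
        intro r hr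
        obtain ⟨s, hs⟩ := (mem_filter.1 hr).2
        obtain ⟨a, b, hab, ha, hb, ha', hb'⟩ := two_leaves H hHa hs
        rw [← card_pair hab]
        apply card_le_card
        intro x hx
        rw [mem_insert, mem_singleton] at hx
        rcases hx with rfl | rfl
        · exact mem_filter.2 ⟨mem_filter.2 ⟨mem_univ _, ha'⟩, ha⟩
        · exact mem_filter.2 ⟨mem_filter.2 ⟨mem_univ _, hb'⟩, hb⟩
      _ = (N2.biUnion (fun r => Z.filter (fun a => H.Reachable r a))).card :=
        (card_biUnion hd).symm
      _ ≤ Z.card := card_le_card (biUnion_subset.2 (fun r _ => filter_subset _ _))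
  have h3 : N2.card + N1.card = T.degree v := by
    rw [hN1, hN2, card_filter_add_card_filter_not, card_neighborFinset_eq_degree]
  have h4 : k - 1 ≤ (k - 1) * (k - 1) := Nat.le_mul_self _
  rw [← h3, sq]
  omega

end Pool.Agent.Results.MP_16ddc9_co.DegreeBound
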